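import Mathlib

/-!
# Statements of the jobs of PROJECT IK (isomorphic form of the KLS hyperplane conjecture)

`g` is a norm on `ℝⁿ`, `A` a linear map, `En g A x = g(x)² + |A x|²`,
`F g A = ∫ exp (-(g(x)² + |A x|²)) dx`. For the maximum of `F g A |det A|^ε` over all `A` the density
`exp (-(g² + |A x|²))` has, in the coordinates `y = A x`, covariance `(ε/2) I` and Hessian at least `2 I`,
so it satisfies the Poincare inequality with constant `1/ε` in isotropic position; and the body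
`{g² + |A x|² ≤ 1}` has volume at least `(ε/(400 L²))^(ε n) |{g ≤ 1}|`, if the isotropic constant of
`{g ≤ 1}` is at most `L`.
-/

set_option autoImplicit false

namespace Pool.Agent.V5helper78.IK

open MeasureTheory Set Filter Topology
open scoped ENNReal InnerProductSpace

abbrev E (n : ℕ) : Type := EuclideanSpace ℝ (Fin n)

/-- `g` is a norm -/
structure Nm {n : ℕ} (g : E n → ℝ) : Prop where
  add : ∀ x y, g (x + y) ≤ g x + g y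
  smul : ∀ (r : ℝ) x, g (r • x) = |r| * g x
  cont : Continuous g
  low : ∃ c : ℝ, 0 < c ∧ ∀ x, c * ‖x‖ ≤ g x

noncomputable def En {n : ℕ} (g : E n → ℝ) (A : E n →L[ℝ] E n) (x : E n) : ℝ :=
  g x ^ 2 + ‖A x‖ ^ 2

noncomputable def F {n : ℕ} (g : E n → ℝ) (A : E n →L[ℝ] E n) : ℝ :=
  ∫ x, Real.exp (-(En g A x))

/-- `A` maximises `F g A |det A|^ε` -/
structure Mx {n : ℕ} (g : E n → ℝ) (ε : ℝ) (A : E n →L[ℝ] E n) : Prop where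
  det : A.det ≠ 0
  max : ∀ A' : E n →L[ℝ] E n, F g A' * |A'.det| ^ ε ≤ F g A * |A.det| ^ ε

/-- JOB GAU (30 lines). The gauge of a symmetric convex body is a norm with unit ball `K`
(`continuous_gauge`, `gauge_le_one_iff_mem_closure`, `gauge_smul`, `gauge_add_le`; the lower bound from
the boundedness of `K`). -/
def S_GAU : Prop := ∀ (n : ℕ) (K : Set (E n)), IsCompact K → Convex ℝ K → (interior K).Nonempty →
  (∀ x ∈ K, -x ∈ K) → Nm (gauge K) ∧ K = {x | gauge K x ≤ 1}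

/-- JOB INT (25 lines). Integrability: `exp(-En) ≤ exp(-c²‖x‖²)`. -/
def S_INT : Prop := ∀ (n : ℕ) (g : E n → ℝ) (A : E n →L[ℝ] E n) (k : ℕ), Nm g →
  Integrable (fun x => ‖x‖ ^ k * Real.exp (-(En g A x)))

/-- JOB VOL (50 lines). `MeasureTheory.measure_le_one_eq_integral_div_gamma` of Mathlib (file
`VolumeOfBalls`) for the norm `N(x) = √(g(x)² + ‖A x‖²)` and `p = 2`. (Triangle inequality of `N`:
Minkowski in `ℝ²`.) -/
def S_VOL : Prop := ∀ (n : ℕ) (g : E n → ℝ) (A : E n →L[ℝ] E n), 1 ≤ n → Nm g →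
  volume {x | En g A x ≤ 1} = ENNReal.ofReal (F g A / Real.Gamma ((n : ℝ) / 2 + 1))

/-- JOB CON (30 lines). Dominated convergence, dominated by `exp (-g²) ≤ exp (-c²‖x‖²)`
(`MeasureTheory.continuous_of_dominated`). -/
def S_CON : Prop := ∀ (n : ℕ) (g : E n → ℝ), Nm g → Continuous fun A : E n →L[ℝ] E n => F g A

/-- JOB DET (40 lines). If `det A = 0` trivial. Otherwise `F g A ≤ ∫ exp (-‖A x‖²) dx =
|det A|⁻¹ ∫ exp (-‖y‖²) dy = |det A|⁻¹ π^(n/2)` (`MeasureTheory.Measure.map_linearMap_addHaar_eq_smul_addHaar`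
or `integral_comp...`, `GaussianFourier.integral_rexp_neg_mul_sq_norm`). -/
def S_DET : Prop := ∀ (n : ℕ) (g : E n → ℝ) (A : E n →L[ℝ] E n), Nm g →
  |A.det| * F g A ≤ Real.pi ^ ((n : ℝ) / 2)

/-- JOB DEC (80 lines). `F g A → 0` for `‖A‖ → ∞`, uniformly. One way: let `a_ij` be the matrix entry of
`A` of largest modulus, `t = |a_ij|`; `t → ∞` if `‖A‖ → ∞` (all norms are equivalent). Then
`En g A x ≥ c²‖x‖² + (∑_k a_ik x_k)²`, and the linear map `x ↦ y`, `y_j = ∑_k a_ik x_k`, `y_k = x_k` for `k ≠ j`,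
has determinant `± t`, so `F g A ≤ ∫ exp (-c² ∑_{k≠j} y_k² - y_j²) dy / t = C / t`. Another way: by
contradiction: `A_m` with `‖A_m‖ → ∞`, `F g A_m > η`; `B_m = A_m / ‖A_m‖` has a convergent subsequence with a
limit `B ≠ 0`; for all `x` outside the null set `ker B` `‖A_m x‖ → ∞`, so `F g A_m → 0` by dominated
convergence. -/
def S_DEC : Prop := ∀ (n : ℕ) (g : E n → ℝ), Nm g → ∀ η : ℝ, 0 < η → ∃ R : ℝ,
  ∀ A : E n →L[ℝ] E n, R ≤ ‖A‖ → F g A ≤ η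

/-- JOB MAX (uses S_CON, S_DET, S_DEC; 50 lines). `F |det|^ε = F^(1-ε) (F |det|)^ε ≤ F^(1-ε) π^(n ε/2)`
tends to `0` for `‖A‖ → ∞`; it is continuous (`ContinuousLinearMap.continuous_det`) and positive for
`A = id`; so it has a maximum (closed balls of `E n →L[ℝ] E n` are compact), which is positive, and
therefore `det A ≠ 0`. -/
def S_MAX : Prop := ∀ (n : ℕ) (g : E n → ℝ) (ε : ℝ), Nm g → 0 < ε → ε < 1 →
  ∃ A : E n →L[ℝ] E n, Mx g ε A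

/-- JOB CRI (uses S_INT; 60 lines). Let `q = ∫ ⟪A x, e⟫² exp (-En) / F g A`. For `s > -1` compare `A` with
`A' x = A x + s ⟪A x, e⟫ e`: `det A' = (1 + s) det A` (`A' = (1 + s e eᵀ) A`, matrix determinant lemma,
`LinearMap.det_...` or `Matrix.det_one_add_...`), `‖A' x‖² = ‖A x‖² + (2 s + s²) ⟪A x, e⟫²`, and by
Jensen's inequality (`exp u ≥ exp m (1 + u - m)`) `F g A' ≥ F g A exp (-(2 s + s²) q)`. So for all `τ = (1 + s)² > 0`: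
`exp (-(τ - 1) q) τ^(ε/2) ≤ 1`, that is `(ε/2) log τ ≤ (τ - 1) q`, and so `q = ε/2` (derivative at `τ = 1`,
or let `τ → 1` from both sides using `log τ ≥ 1 - 1/τ`). -/
def S_CRI : Prop := ∀ (n : ℕ) (g : E n → ℝ) (ε : ℝ) (A : E n →L[ℝ] E n), Nm g → 0 < ε →
  Mx g ε A → ∀ e : E n, ‖e‖ = 1 →
  ∫ x, ⟪A x, e⟫_ℝ ^ 2 * Real.exp (-(En g A x)) = ε / 2 * F g A

/-- JOB MOM (70 lines). `exp (-g²) = ∫_{t > g²} exp (-t) dt`, so by Fubini the left side is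
`∫_0^∞ exp (-t) (∫_{g² ≤ t} ‖T x‖² dx) dt`, and `∫_{g² ≤ t} ‖T x‖² dx = t^(n/2 + 1) ∫_{g ≤ 1} ‖T x‖² dx`
(scaling `x ↦ √t x`, `MeasureTheory.Measure.setIntegral_comp_smul`), `∫_0^∞ t^(n/2 + 1) exp (-t) dt =
Γ(n/2 + 2)`. -/
def S_MOM : Prop := ∀ (n : ℕ) (g : E n → ℝ) (T : E n →L[ℝ] E n), 1 ≤ n → Nm g →
  ∫ x, ‖T x‖ ^ 2 * Real.exp (-(g x ^ 2)) =
    Real.Gamma ((n : ℝ) / 2 + 2) * ∫ x in {x | g x ≤ 1}, ‖T x‖ ^ 2

/-- JOB GAM (25 lines). `Γ(x + 1) = ∫_0^∞ t^x e^(-t) dt ≥ x^x ∫_x^∞ e^(-t) dt = (x/e)^x`, `x = n/2`. -/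
def S_GAM : Prop := ∀ n : ℕ, 1 ≤ n →
  ((n : ℝ) / (2 * Real.exp 1)) ^ ((n : ℝ) / 2) ≤ Real.Gamma ((n : ℝ) / 2 + 1)

/-- JOB MAS (uses S_INT, S_VOL, S_DET, S_MOM, S_GAM; 120 lines). Let `V = |{g ≤ 1}|`, `F₀ = F g 0 = Γ(n/2+1) V`
(S_VOL with `A = 0`), `η = √(ε/n)`, `A' = η • T`. Jensen: `F g A' ≥ F₀ exp (-(∫ ‖A' x‖² exp (-g²)) / F₀)`, and
`∫ ‖A' x‖² exp (-g²) = η² Γ(n/2+2) ∫_{g ≤ 1} ‖T x‖² ≤ η² (n/2+1) n F₀ = ε (n/2+1) F₀ ≤ (3/2) ε n F₀`. Next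
`|det A'| = η^n |det T| ≥ η^n Γ(n/2+1) / (L^n F₀)`. From `Mx`: `F g A' |det A'|^ε ≤ F g A |det A|^ε =
(F g A)^(1-ε) (F g A |det A|)^ε ≤ (F g A)^(1-ε) π^(ε n/2)`. So with `v = F g A / F₀`:
`v^(1-ε) ≥ e^(-3 ε n/2) ((ε/(n π))^(n/2) Γ(n/2+1) / L^n)^ε ≥ (e^(-3/2) (ε/(2 π e))^(1/2) / L)^(ε n) = b^(ε n)`
with `b² = ε/(2 π e⁴ L²) ≥ ε/(400 L²)`, `b ≤ 1`, and `1/(1-ε) ≤ 2`: `v ≥ b^(2 ε n)`. (Take logarithms.) -/
def S_MAS : Prop := ∀ (n : ℕ) (g : E n → ℝ) (ε L : ℝ) (A T : E n →L[ℝ] E n), 1 ≤ n → Nm g →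
  0 < ε → ε ≤ 1 / 2 → 1 ≤ L → Mx g ε A →
  ∫ x in {x | g x ≤ 1}, ‖T x‖ ^ 2 ≤ n * (volume {x | g x ≤ 1}).toReal →
  1 ≤ L ^ n * |T.det| * (volume {x | g x ≤ 1}).toReal →
  (ε / (400 * L ^ 2)) ^ (ε * n) * F g 0 ≤ F g A

/-- JOB LIM (15 lines). `(ε/(400 L²))^ε → 1` for `ε → 0`. -/
def S_LIM : Prop := ∀ δ L : ℝ, 0 < δ → 1 ≤ L → ∃ ε : ℝ, 0 < ε ∧ ε ≤ 1 / 2 ∧
  1 - δ ≤ (ε / (400 * L ^ 2)) ^ ε

end Pool.Agent.V5helper78.IK
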