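import Pool.Agent.V5helper78.KP.Pin
import Pool.Agent.R751.MB.Lin
import Pool.Agent.V5helper78.IK.Stm

/-!
# Weights with Hessian at least `a`; Poincare inequality in isotropic position
-/

set_option autoImplicit false

namespace Pool.Agent.V5helper78.IK

open MeasureTheory Set Filter Topology Metric
open scoped ENNReal InnerProductSpace
open Pool.Agent.R751.MB (Eu EW VW Adm LCn AP)
open Pool.Agent.N483.KM (PS)
open Pool.Agent.V5helper78.KO (Ek adm_low int_of_adm)
open Pool.Agent.V5helper78.KP (par sq_conv)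

/-- `a ≤ Hess V` -/
structure Lo (a : ℝ) {k : ℕ} (V : Ek k → ℝ) : Prop where
  nn : 0 ≤ a
  lo : ConvexOn ℝ univ fun x => V x - a / 2 * ‖x‖ ^ 2

section

variable {a : ℝ} {k : ℕ} {V : Ek k → ℝ}

theorem Lo.conv (h : Lo a V) : ConvexOn ℝ univ V := by
  have h1 := h.lo.add ((sq_conv k).smul (by linarith [h.nn] : 0 ≤ a / 2))
  refine h1.congr fun x _ => ?_
  simp only [Pi.add_apply, smul_eq_mul]
  ring

theorem Lo.cont (h : Lo a V) : Continuous V :=
  continuousOn_univ.1 (h.conv.continuousOn isOpen_univ)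

theorem Lo.mid (h : Lo a V) (x y : Ek k) :
    2 * V ((1 / 2 : ℝ) • (x + y)) + a / 4 * ‖x - y‖ ^ 2 ≤ V x + V y := by
  have h1 := h.lo.2 (mem_univ x) (mem_univ y) (by norm_num : (0 : ℝ) ≤ 1 / 2)
    (by norm_num : (0 : ℝ) ≤ 1 / 2) (by norm_num)
  simp only [smul_eq_mul] at h1
  rw [← smul_add] at h1
  have h2 := par x y
  have h3 : a / 2 * (‖(1 / 2 : ℝ) • (x + y)‖ ^ 2 + ‖x - y‖ ^ 2 / 4) =
    a / 2 * ((‖x‖ ^ 2 + ‖y‖ ^ 2) / 2) := by rw [h2]
  linarith

theorem Lo.grow (h : Lo a V) (ha : 0 < a) : ∃ C : ℝ, ∀ x, ‖x‖ - C ≤ V x := by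
  set f : Ek k → ℝ := fun x => V x - a / 2 * ‖x‖ ^ 2 with hf
  have hfc : Continuous f := continuousOn_univ.1 (h.lo.continuousOn isOpen_univ)
  obtain ⟨M, hM⟩ := (isCompact_closedBall (0 : Ek k) 1).exists_bound_of_continuousOn
    hfc.continuousOn
  have hM0 : 0 ≤ M := (norm_nonneg _).trans (hM 0 (by simp))
  have h1 : ∀ x, -((1 + 2 * ‖x‖) * M) ≤ f x := by
    intro x
    rcases le_total ‖x‖ 1 with hx | hx
    · have h2 := hM x (by simpa using hx)
      rw [Real.norm_eq_abs, abs_le] at h2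
      nlinarith [norm_nonneg x, mul_nonneg (norm_nonneg x) hM0]
    · set t := ‖x‖ with ht
      have ht0 : 0 < t := by linarith
      have h2 := h.lo.2 (mem_univ x) (mem_univ (-(t⁻¹ • x)))
        (by positivity : (0 : ℝ) ≤ 1 / (1 + t)) (by positivity : (0 : ℝ) ≤ t / (1 + t))
        (by field_simp)
      have e1 : (1 / (1 + t)) • x + (t / (1 + t)) • -(t⁻¹ • x) = 0 := by
        rw [smul_neg, smul_smul, ← sub_eq_add_neg, ← sub_smul]
        have : 1 / (1 + t) - t / (1 + t) * t⁻¹ = 0 := by field_simp; ring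
        rw [this, zero_smul]
      rw [e1] at h2
      simp only [smul_eq_mul] at h2
      change f 0 ≤ 1 / (1 + t) * f x + t / (1 + t) * f (-(t⁻¹ • x)) at h2
      have h3 := hM 0 (by simp)
      have h4 := hM (-(t⁻¹ • x)) (by
        rw [mem_closedBall_zero_iff, norm_neg, norm_smul, norm_inv, norm_norm, ← ht,
          inv_mul_cancel₀ ht0.ne'])
      rw [Real.norm_eq_abs, abs_le] at h3 h4
      have h5 : (1 + t) * f 0 ≤ f x + t * f (-(t⁻¹ • x)) := by
        have := mul_le_mul_of_nonneg_left h2 (by positivity : 0 ≤ 1 + t)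
        refine this.trans (le_of_eq ?_)
        field_simp
      nlinarith
  refine ⟨M + (2 * M + 1) ^ 2 / (2 * a), fun x => ?_⟩
  have h2 := h1 x
  have h3 : V x = f x + a / 2 * ‖x‖ ^ 2 := by simp only [hf]; ring
  rw [h3]
  have h4 : (2 * M + 1) * ‖x‖ ≤ a / 2 * ‖x‖ ^ 2 + (2 * M + 1) ^ 2 / (2 * a) := by
    have : a / 2 * ‖x‖ ^ 2 + (2 * M + 1) ^ 2 / (2 * a) - (2 * M + 1) * ‖x‖ =
      (a * ‖x‖ - (2 * M + 1)) ^ 2 / (2 * a) := by field_simp; ring
    have h5 : 0 ≤ (a * ‖x‖ - (2 * M + 1)) ^ 2 / (2 * a) := by positivity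
    linarith
  linarith

theorem Lo.adm (h : Lo a V) (ha : 0 < a) : Adm fun x : Ek k => Real.exp (-V x) := by
  obtain ⟨C, hC⟩ := h.grow ha
  exact adm_low h.cont one_pos C fun x => by rw [one_mul]; exact hC x

/-- the Poincaré inequality -/
theorem Lo.ps (h : Lo a V) (ha : 0 < a) : PS a⁻¹ fun x : Ek k => Real.exp (-V x) := by
  have hadm := h.adm ha
  refine ⟨hadm, fun f hf hB hL => ?_⟩
  obtain ⟨B, hB⟩ := hB
  obtain ⟨L, hL⟩ := hL
  set w : Ek k → ℝ := fun x => Real.exp (-V x) with hw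
  have hfd : Continuous (fderiv ℝ f) := hf.continuous_fderiv one_ne_zero
  have hi0 := int_of_adm hadm
  have hi1 : Integrable fun x => f x * w x :=
    Pool.Agent.N273.KM.CPAx.int_bdd hadm hf.continuous hB
  have hi2 : Integrable fun x => f x ^ 2 * w x :=
    Pool.Agent.N273.KM.CPAx.int_bdd hadm (hf.continuous.pow 2) (B := B ^ 2) fun x => by
      rw [abs_pow]; exact pow_le_pow_left₀ (abs_nonneg _) (hB _) 2
  have hi3 : Integrable fun x => ‖fderiv ℝ f x‖ ^ 2 * w x :=
    Pool.Agent.N273.KM.CPAx.int_bdd hadm (hfd.norm.pow 2) (B := L ^ 2) fun x => by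
      rw [abs_pow, abs_norm]; exact pow_le_pow_left₀ (norm_nonneg _) (hL _) 2
  -- the truncated inequality
  have htr : ∀ R : ℕ, (∫ x in closedBall (0 : Ek k) R, f x ^ 2 * w x) *
      (∫ x in closedBall (0 : Ek k) R, w x) - (∫ x in closedBall (0 : Ek k) R, f x * w x) ^ 2 ≤
      a⁻¹ * (∫ x in closedBall (0 : Ek k) R, ‖fderiv ℝ f x‖ ^ 2 * w x) *
        ∫ x in closedBall (0 : Ek k) R, w x := by
    intro R
    set D : Set (Ek k) := closedBall (0 : Ek k) R with hD
    have hDm : MeasurableSet D := measurableSet_closedBall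
    have hwc : Continuous w := Real.continuous_exp.comp h.cont.neg
    obtain ⟨M, hM⟩ := (isCompact_closedBall (0 : Ek k) (R : ℝ)).exists_bound_of_continuousOn
      hwc.continuousOn
    obtain ⟨c, hc⟩ := Pool.Agent.H212R2.KLS.poincare_of_strong (volume : Measure (Ek k))
      (D.indicator w) (fun x => indicator_nonneg (fun y _ => (Real.exp_pos _).le) x)
      (hwc.measurable.indicator hDm) ⟨max M 0, fun x => by
        by_cases hx : x ∈ D
        · rw [indicator_of_mem hx]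
          exact ((le_abs_self _).trans (hM x hx)).trans (le_max_left _ _)
        · rw [indicator_of_notMem hx]
          exact le_max_right _ _⟩
      ⟨R, fun x hx => indicator_of_notMem (fun hx' => absurd (mem_closedBall_zero_iff.1 hx')
        (not_le.2 hx)) _⟩ a ha (fun x y => by
        have hnn : ∀ z, 0 ≤ D.indicator w z := fun z =>
          indicator_nonneg (fun y _ => (Real.exp_pos _).le) z
        by_cases hx : x ∈ D
        · by_cases hy : y ∈ D
          · have hm : (1 / 2 : ℝ) • (x + y) ∈ D := by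
              have := (convex_closedBall (0 : Ek k) (R : ℝ)) hx hy
                (by norm_num : (0 : ℝ) ≤ 1 / 2) (by norm_num : (0 : ℝ) ≤ 1 / 2) (by norm_num)
              rwa [← smul_add] at this
            rw [indicator_of_mem hx, indicator_of_mem hy, indicator_of_mem hm]
            simp only [hw]
            rw [← Real.exp_add, ← Real.exp_nat_mul, ← Real.exp_add]
            refine Real.exp_le_exp.2 ?_
            have := h.mid x y
            push_cast
            linarith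
          · rw [indicator_of_notMem hy, mul_zero]
            exact mul_nonneg (sq_nonneg _) (Real.exp_pos _).le
        · rw [indicator_of_notMem hx, zero_mul]
          exact mul_nonneg (sq_nonneg _) (Real.exp_pos _).le) f hf
    have e1 : ∀ g : Ek k → ℝ, ∫ x, g x * D.indicator w x = ∫ x in D, g x * w x := by
      intro g
      rw [← integral_indicator hDm]
      refine integral_congr_ae (Eventually.of_forall fun x => ?_)
      simp only
      by_cases hx : x ∈ D
      · rw [indicator_of_mem hx, indicator_of_mem hx]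
      · rw [indicator_of_notMem hx, indicator_of_notMem hx, mul_zero]
    rw [e1, e1] at hc
    have e2 : ∫ x in D, (f x - c) ^ 2 * w x = (∫ x in D, f x ^ 2 * w x) -
        2 * c * (∫ x in D, f x * w x) + c ^ 2 * ∫ x in D, w x := by
      have j1 : Integrable (fun x => 2 * c * (f x * w x)) (volume.restrict D) :=
        hi1.integrableOn.const_mul _
      have j2 : Integrable (fun x => f x ^ 2 * w x - 2 * c * (f x * w x)) (volume.restrict D) :=
        hi2.integrableOn.sub j1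
      have j3 : Integrable (fun x => c ^ 2 * w x) (volume.restrict D) :=
        hi0.integrableOn.const_mul _
      rw [← integral_const_mul, ← integral_const_mul, ← integral_sub hi2.integrableOn j1,
        ← integral_add j2 j3]
      refine integral_congr_ae (Eventually.of_forall fun x => ?_)
      simp only
      ring
    rw [e2] at hc
    have hZ : 0 ≤ ∫ x in D, w x := integral_nonneg fun x => (Real.exp_pos _).le
    have h2 := mul_le_mul_of_nonneg_right hc hZ
    nlinarith [sq_nonneg ((∫ x in D, f x * w x) - c * ∫ x in D, w x)]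
  have hlim : ∀ g : Ek k → ℝ, Integrable g →
      Tendsto (fun R : ℕ => ∫ x in closedBall (0 : Ek k) R, g x) atTop (𝓝 (∫ x, g x)) := by
    intro g hg
    have h1 : Monotone fun R : ℕ => closedBall (0 : Ek k) (R : ℝ) := fun m n hmn =>
      closedBall_subset_closedBall (by exact_mod_cast hmn)
    have h2 := tendsto_setIntegral_of_monotone (μ := volume) (f := g)
      (fun R : ℕ => measurableSet_closedBall (x := (0 : Ek k)) (ε := (R : ℝ))) h1 hg.integrableOn
    rw [iUnion_closedBall_nat, setIntegral_univ] at h2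
    exact h2
  have h5 := le_of_tendsto_of_tendsto (((hlim _ hi2).mul (hlim _ hi0)).sub ((hlim _ hi1).pow 2))
    (((hlim _ hi3).const_mul a⁻¹).mul (hlim _ hi0)) (Eventually.of_forall htr)
  have hZ := hadm.pos
  unfold VW EW
  have e3 : (∫ x, f x ^ 2 * w x) / (∫ x, w x) - ((∫ x, f x * w x) / ∫ x, w x) ^ 2 =
      ((∫ x, f x ^ 2 * w x) * (∫ x, w x) - (∫ x, f x * w x) ^ 2) / (∫ x, w x) ^ 2 := by
    field_simp
  have e4 : a⁻¹ * ((∫ x, ‖fderiv ℝ f x‖ ^ 2 * w x) / ∫ x, w x) =
      (a⁻¹ * (∫ x, ‖fderiv ℝ f x‖ ^ 2 * w x) * ∫ x, w x) / (∫ x, w x) ^ 2 := by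
    field_simp
  rw [e3, e4]
  exact div_le_div_of_nonneg_right h5 (by positivity)

end

/-! ### the energy -/

section

variable {n : ℕ} {g : E n → ℝ}

theorem Nm.nonneg (h : Nm g) (x : E n) : 0 ≤ g x := by
  obtain ⟨c, hc, h1⟩ := h.low
  exact (mul_nonneg hc.le (norm_nonneg x)).trans (h1 x)

theorem Nm.neg (h : Nm g) (x : E n) : g (-x) = g x := by
  have := h.smul (-1) x
  rwa [neg_one_smul, abs_neg, abs_one, one_mul] at this

theorem Nm.conv (h : Nm g) : ConvexOn ℝ univ g := by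
  refine ⟨convex_univ, fun x _ y _ a b ha hb _ => ?_⟩
  refine (h.add _ _).trans (le_of_eq ?_)
  rw [h.smul, h.smul, abs_of_nonneg ha, abs_of_nonneg hb]
  rfl

theorem Nm.sq_conv (h : Nm g) : ConvexOn ℝ univ fun x => g x ^ 2 :=
  h.conv.pow (fun x _ => h.nonneg x) 2

theorem Nm.en_conv (h : Nm g) (A : E n →L[ℝ] E n) : ConvexOn ℝ univ (En g A) := by
  have h1 : ConvexOn ℝ univ fun x : E n => ‖A x‖ ^ 2 := by
    have := (Pool.Agent.V5helper78.KP.sq_conv n).comp_linearMap (A : E n →ₗ[ℝ] E n)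
    rwa [preimage_univ] at this
  exact h.sq_conv.add h1

theorem Nm.en_cont (h : Nm g) (A : E n →L[ℝ] E n) : Continuous (En g A) := by
  have := h.cont
  unfold En
  fun_prop

theorem en_nonneg (g : E n → ℝ) (A : E n →L[ℝ] E n) (x : E n) : 0 ≤ En g A x := by
  unfold En
  positivity

/-- the maximum, in terms of the covariance -/
structure Iso (g : E n → ℝ) (ε : ℝ) (A : E n →L[ℝ] E n) : Prop where
  nm : Nm g
  pos : 0 < ε
  det : A.det ≠ 0
  cov : ∀ e : E n, ‖e‖ = 1 →
    ∫ x, ⟪A x, e⟫_ℝ ^ 2 * Real.exp (-(En g A x)) = ε / 2 * F g A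

theorem Iso.equiv {ε : ℝ} {A : E n →L[ℝ] E n} (h : Iso g ε A) :
    ∃ M : E n ≃ₗ[ℝ] E n, ∀ x, M x = A x := by
  have h1 : LinearMap.det (A : E n →ₗ[ℝ] E n) ≠ 0 := h.det
  exact ⟨LinearMap.equivOfDetNeZero _ h1, fun x => rfl⟩

/-- the weight in the coordinates `y = A x` -/
noncomputable def wt (g : E n → ℝ) (M : E n ≃ₗ[ℝ] E n) (y : E n) : ℝ :=
  Real.exp (-(g (M.symm y) ^ 2 + ‖y‖ ^ 2))

theorem lo_wt (h : Nm g) (M : E n ≃ₗ[ℝ] E n) :
    Lo 2 fun y : E n => g (M.symm y) ^ 2 + ‖y‖ ^ 2 := by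
  refine ⟨by norm_num, ?_⟩
  have h1 := h.sq_conv.comp_linearMap M.symm.toLinearMap
  rw [preimage_univ] at h1
  refine h1.congr fun y _ => ?_
  simp only [Function.comp_apply, LinearEquiv.coe_coe]
  ring

theorem wt_comp {A : E n →L[ℝ] E n} {M : E n ≃ₗ[ℝ] E n} (hM : ∀ x, M x = A x) :
    (fun z : E n => (fun x => Real.exp (-(En g A x))) (M.symm z)) = wt g M := by
  funext z
  simp only [En, wt, ← hM, LinearEquiv.apply_symm_apply]

theorem Iso.var {ε : ℝ} {A : E n →L[ℝ] E n} (h : Iso g ε A) {M : E n ≃ₗ[ℝ] E n}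
    (hM : ∀ x, M x = A x) (hF : 0 < F g A) (θ : E n) :
    VW (κ := Fin n) (wt g M) (fun y => ⟪y, θ⟫_ℝ) = ε / 2 * ‖θ‖ ^ 2 := by
  rw [← wt_comp hM]
  refine (Pool.Agent.R751.MB.LinAux.VW_comp (κ₁ := Fin n) (κ₂ := Fin n) M
    (fun x => Real.exp (-(En g A x))) fun y => ⟪y, θ⟫_ℝ).trans ?_
  have h0 : EW (κ := Fin n) (fun x => Real.exp (-(En g A x))) (fun x => ⟪M x, θ⟫_ℝ) = 0 := by
    unfold EW
    have h1 : ∫ x : E n, ⟪M x, θ⟫_ℝ * Real.exp (-(En g A x)) = 0 := by
      have h2 := integral_neg_eq_self (fun x : E n => ⟪M x, θ⟫_ℝ * Real.exp (-(En g A x))) volume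
      have h3 : ∀ x : E n, ⟪M (-x), θ⟫_ℝ * Real.exp (-(En g A (-x))) =
          -(⟪M x, θ⟫_ℝ * Real.exp (-(En g A x))) := by
        intro x
        simp only [En, map_neg, inner_neg_left, norm_neg, h.nm.neg]
        ring
      simp only [h3] at h2
      rw [integral_neg] at h2
      linarith
    rw [h1, zero_div]
  unfold VW
  rw [h0]
  have h4 : EW (κ := Fin n) (fun x => Real.exp (-(En g A x))) (fun x => ⟪M x, θ⟫_ℝ ^ 2) =
      ε / 2 * ‖θ‖ ^ 2 := by
    unfold EW
    change (∫ x : E n, ⟪M x, θ⟫_ℝ ^ 2 * Real.exp (-(En g A x))) / F g A = _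
    rw [div_eq_iff hF.ne']
    by_cases hθ : θ = 0
    · simp [hθ]
    · have hθ' : 0 < ‖θ‖ := norm_pos_iff.2 hθ
      have h5 := h.cov (‖θ‖⁻¹ • θ) (by rw [norm_smul, norm_inv, norm_norm,
        inv_mul_cancel₀ hθ'.ne'])
      have h6 : ∀ x : E n, ⟪M x, θ⟫_ℝ ^ 2 * Real.exp (-(En g A x)) =
          ‖θ‖ ^ 2 * (⟪A x, ‖θ‖⁻¹ • θ⟫_ℝ ^ 2 * Real.exp (-(En g A x))) := by
        intro x
        rw [hM, inner_smul_right, mul_pow, inv_pow]
        field_simp
      simp only [h6]
      rw [integral_const_mul, h5]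
      ring
  rw [h4]
  ring

theorem Iso.ap {ε : ℝ} {A : E n →L[ℝ] E n} (h : Iso g ε A) {M : E n ≃ₗ[ℝ] E n}
    (hM : ∀ x, M x = A x) : AP (κ := Fin n) (1 / ε) (wt g M) := by
  have h1 := (lo_wt h.nm M).ps (by norm_num : (0 : ℝ) < 2)
  have hε := h.pos
  have hF : 0 < F g A := by
    obtain ⟨c, hc, h2, -⟩ := Pool.Agent.R751.MB.LinAux.exists_int M
    have h3 := h2 (wt g M)
    have h4 : (∫ x, wt g M (M x)) = F g A := by
      unfold F
      refine integral_congr_ae (Eventually.of_forall fun x => ?_)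
      simp only [wt, En, ← hM, LinearEquiv.symm_apply_apply]
    rw [h4] at h3
    rw [h3]
    exact mul_pos hc h1.adm.pos
  refine Pool.Agent.N273.KM.t_CAP _ (2 : ℝ)⁻¹ (ε / 2) (1 / ε) _ (by norm_num) (by positivity)
    (le_of_eq ?_) h1 fun θ => (h.var hM hF θ).ge
  field_simp

theorem Iso.ap_mul {ε : ℝ} {A : E n →L[ℝ] E n} (h : Iso g ε A) {l : ℝ} (hl : 0 < l) :
    AP (κ := Fin n) (1 / ε) fun x => Real.exp (-(l * En g A x)) := by
  obtain ⟨M, hM⟩ := h.equiv
  have h1 := h.ap hM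
  have hs : Real.sqrt l ≠ 0 := (Real.sqrt_pos.2 hl).ne'
  let e : E n ≃ₗ[ℝ] E n := (M.trans (LinearEquiv.smulOfNeZero ℝ (E n) (Real.sqrt l) hs)).symm
  have h2 := Pool.Agent.R751.MB.lin (Fin n) (Fin n) (1 / ε) e _ h1
  have h3 : (fun z : E n => wt g M (e.symm z)) = fun x => Real.exp (-(l * En g A x)) := by
    funext x
    have h4 : e.symm x = Real.sqrt l • M x := rfl
    rw [h4]
    simp only [wt, En, ← hM, map_smul, LinearEquiv.symm_apply_apply, h.nm.smul, norm_smul,
      Real.norm_eq_abs, mul_pow, sq_abs, Real.sq_sqrt hl.le]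
    congr 1
    ring
  rw [h3] at h2
  exact h2

end

end Pool.Agent.V5helper78.IK
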