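import Pool.Agent.V5helper78.IK.Ap

/-!
# The level sets `{g² + |A x|² ≤ 1}`: compact, convex, with interior points
-/

set_option autoImplicit false

namespace Pool.Agent.V5helper78.IK

open MeasureTheory Set Filter Topology Metric
open scoped ENNReal InnerProductSpace

/-- the class of bodies -/
def Cl (ε : ℝ) (n : ℕ) (K : Set (E n)) : Prop :=
  ∃ (g : E n → ℝ) (A : E n →L[ℝ] E n), Iso g ε A ∧ K = {x | En g A x ≤ 1}

theorem Nm.zero {n : ℕ} {g : E n → ℝ} (h : Nm g) : g 0 = 0 := by
  have := h.smul 0 0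
  rwa [zero_smul, abs_zero, zero_mul] at this

theorem en_bdd {n : ℕ} {g : E n → ℝ} (h : Nm g) (A : E n →L[ℝ] E n) (s : ℝ) :
    Bornology.IsBounded {x : E n | En g A x ≤ s} := by
  obtain ⟨c, hc, hlow⟩ := h.low
  refine (Metric.isBounded_closedBall (x := (0 : E n)) (r := (s + 1) / c)).subset fun z hz => ?_
  rw [mem_closedBall_zero_iff, le_div_iff₀ hc]
  have h1 : g z ^ 2 + ‖A z‖ ^ 2 ≤ s := hz
  have h2 := hlow z
  nlinarith [sq_nonneg (g z - 1), sq_nonneg ‖A z‖, sq_nonneg (g z)]

theorem Cl.body {ε : ℝ} {n : ℕ} {K : Set (E n)} (h : Cl ε n K) : IsCompact K ∧ Convex ℝ K ∧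
    (interior K).Nonempty := by
  obtain ⟨g, A, hI, rfl⟩ := h
  have hcont := hI.nm.en_cont A
  have hconv := hI.nm.en_conv A
  have h00 : En g A 0 = 0 := by simp [En, hI.nm.zero]
  refine ⟨Metric.isCompact_of_isClosed_isBounded (isClosed_le hcont continuous_const)
    (en_bdd hI.nm A 1), ?_, 0, ?_⟩
  · have := hconv.convex_le 1
    simpa using this
  · have hop : IsOpen {x : E n | En g A x < 1} := isOpen_lt hcont continuous_const
    have hsub : {x : E n | En g A x < 1} ⊆ {x : E n | En g A x ≤ 1} := fun x hx =>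
      le_of_lt (show En g A x < 1 from hx)
    refine interior_maximal hsub hop ?_
    change En g A 0 < 1
    rw [h00]
    exact one_pos

end Pool.Agent.V5helper78.IK
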