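import Pool.Agent.V5helper78.IK.Bod
import Pool.Agent.Y506.PV.Img
import Pool.Agent.R751.MB.Wht

/-!
# The isotropic constant
-/

set_option autoImplicit false

namespace Pool.Agent.V5helper78.IK

open MeasureTheory Set Filter Topology Metric
open scoped ENNReal InnerProductSpace
open Pool.Agent.Y506.PV (CcW ind)
open Pool.Agent.R751.MB (Eu EW VW Adm AP)

/-- the matrix of the second moments of the uniform law on `K` -/
noncomputable def cov {n : ℕ} (K : Set (E n)) : Matrix (Fin n) (Fin n) ℝ :=
  Matrix.of fun i j => (∫ x in K, x i * x j) / (volume K).toReal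

/-- the isotropic constant of `K = -K` -/
noncomputable def isoC {n : ℕ} (K : Set (E n)) : ℝ :=
  (cov K).det ^ (1 / (2 * (n : ℝ))) / (volume K).toReal ^ (1 / (n : ℝ))

theorem int_ind {n : ℕ} {K : Set (E n)} (hK : MeasurableSet K) (f : E n → ℝ) :
    ∫ x, f x * ind K x = ∫ x in K, f x := by
  rw [← integral_indicator hK]
  refine integral_congr_ae (Eventually.of_forall fun x => ?_)
  simp only [ind]
  by_cases hx : x ∈ K
  · rw [indicator_of_mem hx, indicator_of_mem hx, mul_one]
  · rw [indicator_of_notMem hx, indicator_of_notMem hx, mul_zero]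

theorem exists_T {n : ℕ} (hn : 1 ≤ n) {K : Set (E n)} (hc : IsCompact K)
    (hi : (interior K).Nonempty) (hs : ∀ x ∈ K, -x ∈ K) :
    ∃ T : E n →L[ℝ] E n, ∫ x in K, ‖T x‖ ^ 2 ≤ n * (volume K).toReal ∧
      1 ≤ (max 1 (isoC K)) ^ n * |T.det| * (volume K).toReal := by
  have hKm : MeasurableSet K := hc.measurableSet
  have hV : 0 < (volume K).toReal := by
    exact ENNReal.toReal_pos (Pool.Agent.Y506.PV.vol_pos hi).ne' hc.measure_lt_top.ne
  have hadm := Pool.Agent.Y506.PV.adm_ind K hKm hc.isBounded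
    (Pool.Agent.Y506.PV.vol_pos hi)
  obtain ⟨S, hS, -⟩ := Pool.Agent.R751.MB.wht (Fin n) (ind K)
    ⟨hadm.nonneg, hadm.int, hadm.pos, hadm.meas⟩
  have hZ : ∫ x, ind K x = (volume K).toReal := by
    have := int_ind hKm fun _ : E n => (1 : ℝ)
    simp only [one_mul] at this
    rw [this, setIntegral_const, smul_eq_mul, mul_one]
    rfl
  have hcontS : Continuous S := S.continuous
  -- the mean is zero
  have hodd : ∀ θ : E n, ∫ x in K, ⟪S x, θ⟫_ℝ = 0 := by
    intro θ
    have h1 := int_ind hKm fun x : E n => ⟪S x, θ⟫_ℝ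
    rw [← h1]
    have h2 := integral_neg_eq_self (fun x : E n => ⟪S x, θ⟫_ℝ * ind K x) volume
    have h3 : ∀ x : E n, ⟪S (-x), θ⟫_ℝ * ind K (-x) = -(⟪S x, θ⟫_ℝ * ind K x) := by
      intro x
      have h4 : ind K (-x) = ind K x := by
        simp only [ind]
        by_cases hx : x ∈ K
        · rw [indicator_of_mem hx, indicator_of_mem (hs x hx)]
        · rw [indicator_of_notMem hx, indicator_of_notMem fun h => hx (by simpa using hs _ h)]
      rw [h4, map_neg, inner_neg_left]
      ring
    simp only [h3] at h2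
    rw [integral_neg] at h2
    linarith
  have hsec : ∀ θ : E n, ∫ x in K, ⟪S x, θ⟫_ℝ ^ 2 = ‖θ‖ ^ 2 * (volume K).toReal := by
    intro θ
    have h1 := hS θ
    unfold VW EW at h1
    have h2 := int_ind hKm fun x : E n => ⟪S x, θ⟫_ℝ ^ 2
    have h3 := int_ind hKm fun x : E n => ⟪S x, θ⟫_ℝ
    rw [h2, h3, hZ, hodd θ, zero_div, zero_pow two_ne_zero, sub_zero, div_eq_iff hV.ne'] at h1
    exact h1
  have hint : ∀ θ η : E n, IntegrableOn (fun x : E n => ⟪S x, θ⟫_ℝ * ⟪S x, η⟫_ℝ) K := by
    intro θ η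
    exact ((hcontS.inner continuous_const).mul
      (hcontS.inner continuous_const)).continuousOn.integrableOn_compact hc
  have hpol : ∀ θ η : E n, ∫ x in K, ⟪S x, θ⟫_ℝ * ⟪S x, η⟫_ℝ = ⟪θ, η⟫_ℝ * (volume K).toReal := by
    intro θ η
    have h1 := hsec (θ + η)
    have h2 : ∀ x : E n, ⟪S x, θ + η⟫_ℝ ^ 2 = ⟪S x, θ⟫_ℝ * ⟪S x, θ⟫_ℝ +
        2 * (⟪S x, θ⟫_ℝ * ⟪S x, η⟫_ℝ) + ⟪S x, η⟫_ℝ * ⟪S x, η⟫_ℝ := by
      intro x
      rw [inner_add_right]
      ring
    simp only [h2] at h1
    have i1 : IntegrableOn (fun x : E n => 2 * (⟪S x, θ⟫_ℝ * ⟪S x, η⟫_ℝ)) K :=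
      (hint θ η).const_mul 2
    have i2 : IntegrableOn (fun x : E n => ⟪S x, θ⟫_ℝ * ⟪S x, θ⟫_ℝ +
      2 * (⟪S x, θ⟫_ℝ * ⟪S x, η⟫_ℝ)) K := (hint θ θ).add i1
    rw [integral_add i2 (hint η η), integral_add (hint θ θ) i1, integral_const_mul] at h1
    have h3 := hsec θ
    have h4 := hsec η
    simp only [sq (⟪_, _⟫_ℝ)] at h3 h4
    rw [h3, h4, norm_add_sq_real] at h1
    linarith
  -- the matrix of `S`
  let b := (EuclideanSpace.basisFun (Fin n) ℝ)
  let s : Matrix (Fin n) (Fin n) ℝ := LinearMap.toMatrix b.toBasis b.toBasis (S : E n →ₗ[ℝ] E n)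
  have hsdet : s.det = LinearMap.det (S : E n →ₗ[ℝ] E n) := LinearMap.det_toMatrix _ _
  have hcomp : ∀ (x : E n) (i : Fin n), (S x) i = ∑ j, s i j * x j := by
    intro x i
    have h1 := LinearMap.toMatrix_mulVec_repr b.toBasis b.toBasis (S : E n →ₗ[ℝ] E n) x
    have h2 := congrFun h1 i
    simp only [OrthonormalBasis.coe_toBasis_repr_apply, b, EuclideanSpace.basisFun_repr] at h2
    exact h2.symm
  have hinner : ∀ (x : E n) (i : Fin n), ⟪S x, EuclideanSpace.single i (1 : ℝ)⟫_ℝ = (S x) i := by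
    intro x i
    simp [EuclideanSpace.inner_single_right]
  have hmat : s * cov K * s.transpose = 1 := by
    ext i j
    have h1 := hpol (EuclideanSpace.single i 1) (EuclideanSpace.single j 1)
    simp only [hinner, hcomp] at h1
    have h2 : ∀ x : E n, (∑ k, s i k * x k) * (∑ l, s j l * x l) =
        ∑ k, ∑ l, (s i k * s j l) * (x k * x l) := by
      intro x
      rw [Finset.sum_mul_sum]
      refine Finset.sum_congr rfl fun k _ => Finset.sum_congr rfl fun l _ => ?_
      ring
    simp only [h2] at h1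
    have h3 : ∀ k l : Fin n, IntegrableOn (fun x : E n => (s i k * s j l) * (x k * x l)) K := by
      intro k l
      have : Continuous fun x : E n => (s i k * s j l) * (x k * x l) := by fun_prop
      exact this.continuousOn.integrableOn_compact hc
    rw [integral_finsetSum _ fun k _ => integrable_finsetSum _ fun l _ => h3 k l] at h1
    have h4 : ∀ k : Fin n, ∫ x in K, ∑ l, (s i k * s j l) * (x k * x l) =
        ∑ l, (s i k * s j l) * ∫ x in K, x k * x l := by
      intro k
      rw [integral_finsetSum _ fun l _ => h3 k l]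
      exact Finset.sum_congr rfl fun l _ => integral_const_mul _ _
    simp only [h4] at h1
    have h5 : (s * cov K * s.transpose) i j =
        (∑ k, ∑ l, (s i k * s j l) * ∫ x in K, x k * x l) / (volume K).toReal := by
      simp only [Matrix.mul_apply, Matrix.transpose_apply, cov, Matrix.of_apply, Finset.sum_mul]
      rw [Finset.sum_comm, Finset.sum_div]
      refine Finset.sum_congr rfl fun k _ => ?_
      rw [Finset.sum_div]
      refine Finset.sum_congr rfl fun l _ => ?_
      ring
    rw [h5, h1, mul_div_assoc, div_self hV.ne', mul_one, Matrix.one_apply]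
    rw [EuclideanSpace.inner_single_left]
    by_cases hij : i = j
    · subst hij
      simp
    · simp [hij]
  have hdet : (LinearMap.det (S : E n →ₗ[ℝ] E n)) ^ 2 * (cov K).det = 1 := by
    have h1 := congrArg Matrix.det hmat
    rw [Matrix.det_mul, Matrix.det_mul, Matrix.det_transpose, Matrix.det_one, hsdet] at h1
    linarith
  refine ⟨(S : E n →L[ℝ] E n), le_of_eq ?_, ?_⟩
  · have h1 : ∀ x : E n, ‖(S : E n →L[ℝ] E n) x‖ ^ 2 =
        ∑ i, ⟪S x, EuclideanSpace.single i (1 : ℝ)⟫_ℝ ^ 2 := by
      intro x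
      rw [EuclideanSpace.real_norm_sq_eq]
      refine Finset.sum_congr rfl fun i _ => ?_
      rw [hinner]
      rfl
    simp only [h1]
    rw [integral_finsetSum]
    · simp only [hsec, PiLp.norm_single, norm_one, one_pow, one_mul, Finset.sum_const,
        Finset.card_univ, Fintype.card_fin, nsmul_eq_mul]
    · intro i _
      have := hint (EuclideanSpace.single i 1) (EuclideanSpace.single i 1)
      simp only [← sq] at this
      exact this
  · set D : ℝ := LinearMap.det (S : E n →ₗ[ℝ] E n) with hD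
    have hD' : (S : E n →L[ℝ] E n).det = D := rfl
    rw [hD']
    have hcov : 0 < (cov K).det := by
      by_contra h
      push Not at h
      nlinarith [sq_nonneg D, mul_nonneg (sq_nonneg D) (neg_nonneg.2 h)]
    have hn0 : (n : ℝ) ≠ 0 := by
      have : 0 < n := hn
      positivity
    have h1 : isoC K ^ n = Real.sqrt (cov K).det / (volume K).toReal := by
      have e1 : 1 / (2 * (n : ℝ)) * n = 1 / 2 := by field_simp
      have e2 : 1 / (n : ℝ) * n = 1 := by field_simp
      unfold isoC
      rw [div_pow, ← Real.rpow_natCast, ← Real.rpow_natCast, ← Real.rpow_mul hcov.le,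
        ← Real.rpow_mul hV.le, Real.sqrt_eq_rpow, e1, e2, Real.rpow_one]
    have h2 : Real.sqrt (cov K).det * |D| = 1 := by
      have h3 : (Real.sqrt (cov K).det * |D|) ^ 2 = 1 := by
        rw [mul_pow, Real.sq_sqrt hcov.le, sq_abs, mul_comm]
        exact hdet
      have h4 : 0 ≤ Real.sqrt (cov K).det * |D| := by positivity
      nlinarith
    have h5 : 0 ≤ isoC K := by
      unfold isoC
      positivity
    have h6 : isoC K ^ n ≤ (max 1 (isoC K)) ^ n :=
      pow_le_pow_left₀ h5 (le_max_right _ _) n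
    calc (1 : ℝ) = isoC K ^ n * |D| * (volume K).toReal := by
          rw [h1]
          field_simp
          linarith
      _ ≤ (max 1 (isoC K)) ^ n * |D| * (volume K).toReal := by gcongr

end Pool.Agent.V5helper78.IK
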