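import Pool.Agent.V5helper78.IK.Bod
import Pool.Agent.V5helper72.IK.INT

/-!
# The density of `A x` is somewhere large: `|det A| F(A) ≤ 2 |B_2^n| (n ε)^(n/2)`
-/

set_option autoImplicit false

namespace Pool.Agent.V5helper78.IK

open MeasureTheory Set Filter Topology Metric
open scoped ENNReal InnerProductSpace

theorem Iso.sq {n : ℕ} {g : E n → ℝ} {ε : ℝ} {A : E n →L[ℝ] E n} (h : Iso g ε A) :
    Integrable (fun x => ‖A x‖ ^ 2 * Real.exp (-(En g A x))) ∧
    ∫ x, ‖A x‖ ^ 2 * Real.exp (-(En g A x)) = n * (ε / 2 * F g A) := by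
  have hi2 := Pool.Agent.V5helper72.IK.t_INT n g A 2 h.nm
  have hcont := h.nm.en_cont A
  have hi : ∀ e : E n, Integrable (fun x => ⟪A x, e⟫_ℝ ^ 2 * Real.exp (-(En g A x))) := by
    intro e
    refine (hi2.const_mul ((‖A‖ * ‖e‖) ^ 2)).mono' ?_ (Eventually.of_forall fun x => ?_)
    · have : Continuous fun x => ⟪A x, e⟫_ℝ ^ 2 * Real.exp (-(En g A x)) := by fun_prop
      exact this.aestronglyMeasurable
    · rw [Real.norm_eq_abs, abs_of_nonneg (by positivity), ← mul_assoc]
      refine mul_le_mul_of_nonneg_right ?_ (Real.exp_pos _).le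
      have h1 : |⟪A x, e⟫_ℝ| ≤ ‖A‖ * ‖e‖ * ‖x‖ := by
        calc |⟪A x, e⟫_ℝ| ≤ ‖A x‖ * ‖e‖ := abs_real_inner_le_norm _ _
          _ ≤ ‖A‖ * ‖x‖ * ‖e‖ := mul_le_mul_of_nonneg_right (A.le_opNorm x) (norm_nonneg _)
          _ = _ := by ring
      rw [← sq_abs, ← mul_pow]
      exact pow_le_pow_left₀ (abs_nonneg _) h1 2
  have e1 : ∀ x : E n, ‖A x‖ ^ 2 * Real.exp (-(En g A x)) =
      ∑ i : Fin n, ⟪A x, EuclideanSpace.single i (1 : ℝ)⟫_ℝ ^ 2 * Real.exp (-(En g A x)) := by
    intro x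
    rw [EuclideanSpace.real_norm_sq_eq, Finset.sum_mul]
    refine Finset.sum_congr rfl fun i _ => ?_
    simp [EuclideanSpace.inner_single_right]
  constructor
  · simp only [e1]
    exact integrable_finsetSum _ fun i _ => hi _
  · simp only [e1]
    rw [integral_finsetSum _ fun i _ => hi _]
    have e2 : ∀ i : Fin n, ∫ x, ⟪A x, EuclideanSpace.single i (1 : ℝ)⟫_ℝ ^ 2 *
        Real.exp (-(En g A x)) = ε / 2 * F g A := fun i => h.cov _ (by simp)
    simp only [e2, Finset.sum_const, Finset.card_univ, Fintype.card_fin, nsmul_eq_mul]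

theorem Iso.det_le {n : ℕ} (hn : 1 ≤ n) {g : E n → ℝ} {ε : ℝ} {A : E n →L[ℝ] E n}
    (h : Iso g ε A) : |A.det| * F g A ≤
      2 * (Real.sqrt (n * ε) ^ n * (Real.sqrt Real.pi ^ n / Real.Gamma ((n : ℝ) / 2 + 1))) := by
  have hε := h.pos
  have hn0 : (0 : ℝ) < n := by exact_mod_cast hn
  have hnt : Nonempty (Fin n) := ⟨⟨0, hn⟩⟩
  obtain ⟨hi2, h2⟩ := h.sq
  have hi0 : Integrable fun x => Real.exp (-(En g A x)) := by
    have := Pool.Agent.V5helper72.IK.t_INT n g A 0 h.nm
    simpa using this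
  set r : ℝ := Real.sqrt (n * ε) with hr
  have hr2 : r ^ 2 = n * ε := Real.sq_sqrt (by positivity)
  have hr0 : 0 < r := Real.sqrt_pos.2 (by positivity)
  set S : Set (E n) := A ⁻¹' closedBall 0 r with hS
  have hSm : MeasurableSet S := A.continuous.measurable measurableSet_closedBall
  have hdet : (A : E n →L[ℝ] E n).det ≠ 0 := h.det
  have hvol : volume S = ENNReal.ofReal |(A.det)⁻¹| * volume (closedBall (0 : E n) r) := by
    rw [hS]
    exact Measure.addHaar_preimage_continuousLinearMap _ hdet _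
  have hball : volume (closedBall (0 : E n) r) = ENNReal.ofReal (r ^ n *
      (Real.sqrt Real.pi ^ n / Real.Gamma ((n : ℝ) / 2 + 1))) := by
    rw [EuclideanSpace.volume_closedBall, Fintype.card_fin, ← ENNReal.ofReal_pow hr0.le,
      ← ENNReal.ofReal_mul (by positivity)]
  have hΓ : 0 < Real.Gamma ((n : ℝ) / 2 + 1) := Real.Gamma_pos_of_pos (by positivity)
  have hSfin : volume S ≠ ⊤ := by
    rw [hvol, hball]
    exact ENNReal.mul_ne_top ENNReal.ofReal_ne_top ENNReal.ofReal_ne_top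
  -- Markov
  have hM : F g A ≤ (∫ x in S, Real.exp (-(En g A x))) + F g A / 2 := by
    have h3 : F g A = (∫ x in S, Real.exp (-(En g A x))) + ∫ x in Sᶜ, Real.exp (-(En g A x)) :=
      (integral_add_compl hSm hi0).symm
    have h4 : ∫ x in Sᶜ, Real.exp (-(En g A x)) ≤ F g A / 2 := by
      have h5 : ∫ x in Sᶜ, Real.exp (-(En g A x)) ≤
          ∫ x in Sᶜ, (n * ε)⁻¹ * (‖A x‖ ^ 2 * Real.exp (-(En g A x))) := by
        refine setIntegral_mono_on hi0.integrableOn (hi2.const_mul _).integrableOn hSm.compl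
          fun x hx => ?_
        have h6 : r < ‖A x‖ := by
          by_contra hc
          exact hx (by simpa [hS] using not_lt.1 hc)
        have h7 : n * ε ≤ ‖A x‖ ^ 2 := by
          rw [← hr2]
          exact pow_le_pow_left₀ hr0.le h6.le 2
        rw [← mul_assoc]
        refine le_mul_of_one_le_left (Real.exp_pos _).le ?_
        rw [inv_mul_eq_div, le_div_iff₀ (by positivity), one_mul]
        exact h7
      have h8 : ∫ x in Sᶜ, (n * ε)⁻¹ * (‖A x‖ ^ 2 * Real.exp (-(En g A x))) ≤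
          ∫ x, (n * ε)⁻¹ * (‖A x‖ ^ 2 * Real.exp (-(En g A x))) :=
        setIntegral_le_integral (hi2.const_mul _) (Eventually.of_forall fun x => by positivity)
      have h9 : ∫ x, (n * ε)⁻¹ * (‖A x‖ ^ 2 * Real.exp (-(En g A x))) =
          (n * ε)⁻¹ * (n * (ε / 2 * F g A)) := by rw [integral_const_mul, h2]
      rw [h9] at h8
      refine (h5.trans h8).trans (le_of_eq ?_)
      field_simp
    linarith
  have hS1 : ∫ x in S, Real.exp (-(En g A x)) ≤ (volume S).toReal := by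
    have h3 : ∫ x in S, Real.exp (-(En g A x)) ≤ ∫ x in S, (1 : ℝ) := by
      refine setIntegral_mono_on hi0.integrableOn (integrableOn_const hSfin) hSm
        fun x _ => ?_
      rw [Real.exp_le_one_iff]
      linarith [en_nonneg g A x]
    rw [setIntegral_const, smul_eq_mul, mul_one] at h3
    exact h3
  have hV : (volume S).toReal = |A.det|⁻¹ * (r ^ n *
      (Real.sqrt Real.pi ^ n / Real.Gamma ((n : ℝ) / 2 + 1))) := by
    rw [hvol, hball, ← ENNReal.ofReal_mul (abs_nonneg _), ENNReal.toReal_ofReal (by positivity),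
      abs_inv]
  have hd : 0 < |A.det| := abs_pos.2 hdet
  have hF : F g A ≤ 2 * (|A.det|⁻¹ * (r ^ n *
      (Real.sqrt Real.pi ^ n / Real.Gamma ((n : ℝ) / 2 + 1)))) := by
    rw [← hV]
    linarith
  calc |A.det| * F g A ≤ |A.det| * (2 * (|A.det|⁻¹ * (r ^ n *
        (Real.sqrt Real.pi ^ n / Real.Gamma ((n : ℝ) / 2 + 1))))) :=
        mul_le_mul_of_nonneg_left hF hd.le
    _ = _ := by field_simp

end Pool.Agent.V5helper78.IK
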