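import Pool.Agent.Y506.PV.Fin
import Pool.Agent.R751.MB.Apc

/-!
# Explicit constants: from Poincare inequalities to the functional inequality
(the proofs are those of `R751.MB.apc`, `Y427.PV.rad`, `Y506.PV.stb`)
-/

set_option autoImplicit false

namespace Pool.Agent.V5helper78.IK.X1

open MeasureTheory Set Filter Topology
open scoped ENNReal InnerProductSpace Pointwise
open Pool.Agent.R751.MB

/-- the Poincare inequality gives concentration -/
theorem apcE (A δ : ℝ) (hA : 0 < A) (hδ : 0 < δ) {n : ℕ} {w : Eu (Fin n) → ℝ} (h : AP A w) :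
    CcW (Real.sqrt (δ / A)) δ w := by
  intro k hk T s hs hT v hv hv1 hvl
  obtain ⟨S, hS, hP⟩ := h.poi
  obtain ⟨T', hT'⟩ : ∃ T' : Eu (Fin n) →L[ℝ] Eu (Fin k), T' = LinearMap.toContinuousLinearMap T :=
    ⟨_, rfl⟩
  have hTx : ∀ x, T x = T' x := fun x => by rw [hT']; rfl
  have hn := norm_le w S hS T' s hs (fun θ hθ => by
    have := hT θ hθ
    simp only [hTx] at this
    exact this)
  obtain ⟨h1, h2⟩ := comp_lin (T'.comp (S.symm : Eu (Fin n) →L[ℝ] Eu (Fin n))) _ hn v hv _ hvl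
  have hsq : Real.sqrt s ≠ 0 := (Real.sqrt_pos.2 hs).ne'
  rw [div_mul_cancel₀ _ hsq] at h2
  have key := hP _ h1 ⟨1, fun x => hv1 _⟩ ⟨_, h2⟩
  have e1 : ∀ x, (T'.comp (S.symm : Eu (Fin n) →L[ℝ] Eu (Fin n))) (S x) = T x := by
    intro x
    rw [hTx]
    simp
  simp only [e1] at key
  refine key.trans ?_
  have h3 : EW w (fun x => ‖fderiv ℝ (fun x => v ((T'.comp
      (S.symm : Eu (Fin n) →L[ℝ] Eu (Fin n))) x)) (S x)‖ ^ 2) ≤ δ / A := by
    refine EW_le_const h.adm _ _ (by positivity) fun x => ?_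
    have h4 := h2 (S x)
    calc _ ≤ Real.sqrt (δ / A) ^ 2 := pow_le_pow_left₀ (norm_nonneg _) h4 2
      _ = δ / A := Real.sq_sqrt (by positivity)
  calc A * _ ≤ A * (δ / A) := mul_le_mul_of_nonneg_left h3 hA.le
    _ = δ := by field_simp

end Pool.Agent.V5helper78.IK.X1

namespace Pool.Agent.V5helper78.IK.X2

set_option linter.all false

open MeasureTheory Set Filter Topology
open scoped ENNReal InnerProductSpace
open Pool.Agent.W695.KH (Eu)
open Pool.Agent.Y506.RG (EW VW Adm EW_mono EW_add EW_const_mul EW_const VW_shift EW_nonneg)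
open Pool.Agent.Y506.PV (CcW ind wPhi Hom S_MIX S_GAM S_RAD)
open Pool.Agent.Y427.PV

theorem radE (h1 : S_MIX) (h2 : S_GAM) (p δ κ : ℝ) (hp : 1 ≤ p) (hδ : 0 < δ) (hκ : 0 < κ)
    (n : ℕ) (Φ : Eu (Fin n) → ℝ≥0∞) (hn : 1 ≤ n) (hΦ : Hom p Φ) :
    Adm (wPhi Φ) ∧ Adm (ind {x | Φ x ≤ 1}) ∧ (CcW κ (δ / 6) (wPhi Φ) →
      CcW (min (κ / 2) (Real.sqrt (δ / (6 * (1 + p))))) δ (ind {x | Φ x ≤ 1})) := by
  have hp0 : 0 < p := by linarith
  have hκ'0 : 0 < min (κ / 2) (Real.sqrt (δ / (6 * (1 + p)))) :=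
    lt_min (by positivity) (Real.sqrt_pos.2 (by positivity))
  have hKm : MeasurableSet {x | Φ x ≤ 1} := hΦ.meas measurableSet_Iic
  obtain ⟨R, B, hR, hB, g1, g2, g3, _⟩ := h2 p n hp hn
  have hβ : Measurable fun r : ℝ =>
      ENNReal.ofReal (p * r ^ ((n : ℝ) + p - 1) * Real.exp (-(r ^ p))) := by fun_prop
  have hρi : ∀ F : ℝ → ℝ≥0∞, ∫⁻ r, F r ∂((volume.restrict (Ioi (0 : ℝ))).withDensity fun r : ℝ =>
      ENNReal.ofReal (p * r ^ ((n : ℝ) + p - 1) * Real.exp (-(r ^ p)))) =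
      ∫⁻ r in Ioi (0 : ℝ), ENNReal.ofReal (p * r ^ ((n : ℝ) + p - 1) * Real.exp (-(r ^ p))) * F r := by
    intro F
    rw [lintegral_withDensity_eq_lintegral_mul_non_measurable _ hβ
      (Eventually.of_forall fun r => ENNReal.ofReal_lt_top)]
    rfl
  have hρ : ((volume.restrict (Ioi (0 : ℝ))).withDensity fun r : ℝ =>
      ENNReal.ofReal (p * r ^ ((n : ℝ) + p - 1) * Real.exp (-(r ^ p)))) univ =
      ENNReal.ofReal B := by
    rw [← lintegral_one, hρi]
    simp only [mul_one]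
    exact g1
  have hm2 : ∫⁻ r, ENNReal.ofReal ((r - R) ^ 2) ∂((volume.restrict (Ioi (0 : ℝ))).withDensity
      fun r : ℝ => ENNReal.ofReal (p * r ^ ((n : ℝ) + p - 1) * Real.exp (-(r ^ p)))) ≤
      ENNReal.ofReal (p / n * R ^ 2 * B) := by
    rw [hρi]
    simp only [mul_comm]
    simp only [mul_comm] at g2
    exact g2
  have hm3 : ∫⁻ r, ENNReal.ofReal (r ^ 2) ∂((volume.restrict (Ioi (0 : ℝ))).withDensity
      fun r : ℝ => ENNReal.ofReal (p * r ^ ((n : ℝ) + p - 1) * Real.exp (-(r ^ p)))) ≤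
      ENNReal.ofReal (4 * R ^ 2 * B) := by
    rw [hρi]
    simp only [mul_comm]
    simp only [mul_comm] at g3
    exact g3
  have hw0 : ∀ x, 0 ≤ wPhi Φ x := by
    intro x
    unfold wPhi
    split_ifs
    · exact le_rfl
    · exact (Real.exp_pos _).le
  have hwm : Measurable (wPhi Φ) := by
    unfold wPhi
    refine Measurable.ite (hΦ.meas (measurableSet_singleton ⊤)) measurable_const ?_
    exact Real.measurable_exp.comp (hΦ.meas.ennreal_toReal.neg)
  have mix : ∀ F : Eu (Fin n) → ℝ≥0∞, Measurable F → ∫⁻ x, F x * ENNReal.ofReal (wPhi Φ x) =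
      ∫⁻ r, (∫⁻ y in {x | Φ x ≤ 1}, F (r • y)) ∂((volume.restrict (Ioi (0 : ℝ))).withDensity
      fun r : ℝ => ENNReal.ofReal (p * r ^ ((n : ℝ) + p - 1) * Real.exp (-(r ^ p)))) := by
    intro F hF
    rw [hρi]
    exact h1 p n Φ hp hn hΦ F hF
  have hA := adm_mix _ {x | Φ x ≤ 1} (wPhi Φ) B hB hρ (ne_top_of_le_ne_top ENNReal.ofReal_ne_top hm3)
    hKm hΦ.bdd hΦ.vol hw0 hwm mix
  have hI := adm_ind hKm hΦ.bdd hΦ.vol
  refine ⟨hA, hI, fun hc => ?_⟩
  refine core _ {x | Φ x ≤ 1} (wPhi Φ) B R p κ _ δ hn hB hR hp0.le hκ'0 hδ (min_le_left _ _) ?_ hρ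
    hm2 hm3 hKm hΦ.bdd.measure_lt_top.ne hI hA mix hc
  have e1 : (min (κ / 2) (Real.sqrt (δ / (6 * (1 + p))))) ^ 2 ≤ δ / (6 * (1 + p)) := by
    refine (pow_le_pow_left₀ hκ'0.le (min_le_right _ _) 2).trans (le_of_eq ?_)
    exact Real.sq_sqrt (by positivity)
  calc _ ≤ δ / (6 * (1 + p)) * (6 * (1 + p)) := mul_le_mul_of_nonneg_right e1 (by positivity)
    _ = δ := by field_simp

end Pool.Agent.V5helper78.IK.X2

namespace Pool.Agent.V5helper78.IK.X3

open MeasureTheory Set Filter Topology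
open scoped ENNReal InnerProductSpace
open Pool.Agent.W695.KH (Eu EU EV VV Sm Pot Uu)
open Pool.Agent.Y506.RG
open Pool.Agent.Y506.PV

theorem stbE (hiso : S_ISO) (κ : ℝ) (hκ : 0 < κ) (n : ℕ) (K : Set (Eu (Fin n)))
    (hK : IsCompact K) (hc : Convex ℝ K) (hint : (interior K).Nonempty)
    (hcc : CcW κ (1 / 25) (ind K)) : Star (2 / κ / Real.sqrt 1) (ind K) := by
  have hvol : 0 < volume K :=
    lt_of_lt_of_le (isOpen_interior.measure_pos volume hint) (measure_mono interior_subset)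
  have hA := adm_ind K hK.measurableSet hK.isBounded hvol
  obtain ⟨A, hiA⟩ := hiso n (ind K) hA
  obtain ⟨K', hK'⟩ : ∃ K' : Set (Eu (Fin n)), K' = A '' K := ⟨_, rfl⟩
  have hcp' : IsCompact K' := by rw [hK']; exact hK.image A.continuous
  have hcv' : Convex ℝ K' := by
    rw [hK']
    exact hc.linear_image A.toLinearEquiv.toLinearMap
  have hvol' : 0 < volume K' := by
    have h1 : (interior K').Nonempty := by
      obtain ⟨x, hx⟩ := hint
      have h2 : IsOpen (A '' interior K) := A.toHomeomorph.isOpenMap _ isOpen_interior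
      have h3 : A '' interior K ⊆ K' := by rw [hK']; exact image_mono interior_subset
      exact ⟨A x, interior_maximal h3 h2 ⟨x, hx, rfl⟩⟩
    exact lt_of_lt_of_le (isOpen_interior.measure_pos volume h1) (measure_mono interior_subset)
  have hA' := adm_ind K' hcp'.measurableSet hcp'.isBounded hvol'
  have hw : ∀ x, ind K x = 1 * ind K' (A (x - 0)) := by
    intro x
    rw [sub_zero, one_mul]
    unfold ind
    by_cases hx : x ∈ K
    · have : A x ∈ K' := by rw [hK']; exact ⟨x, hx, rfl⟩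
      rw [indicator_of_mem hx, indicator_of_mem this]
    · have : A x ∉ K' := by
        rw [hK']
        rintro ⟨y, hy, hxy⟩
        exact hx (A.injective hxy ▸ hy)
      rw [indicator_of_notMem hx, indicator_of_notMem this]
  have hVW : ∀ v : Eu (Fin n) → ℝ, VW (ind K) (fun x => v (A x)) = VW (ind K') v := by
    intro v
    unfold VW
    rw [EW_aff A 0 1 one_pos _ _ hw, EW_aff A 0 1 one_pos _ _ hw]
    simp only [add_zero, ContinuousLinearEquiv.apply_symm_apply]
  refine star_aff A 0 1 one_pos _ (ind K') hw hA' ?_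
  refine star_of hA' 1 (2 / κ) one_pos (by positivity) ?_ ?_
  · intro θ hθ
    have h1 := hiA θ
    rw [hVW (fun z => ⟪z, θ⟫_ℝ), hθ] at h1
    have h2 : (fun z : Eu (Fin n) => ⟪θ, z⟫_ℝ) = fun z => ⟪z, θ⟫_ℝ := by
      funext z
      rw [real_inner_comm]
    rw [h2, h1]
    norm_num
  · intro g L' M' hg hb h5
    have hl : Pool.Agent.Y506.FF.LCon K' κ (1 / 25) := by
      intro v hv hv1 hvl
      rw [VV_VW K' hcp'.measurableSet, ← hVW]
      refine hcc n le_rfl A.toLinearEquiv.toLinearMap 1 one_pos ?_ v hv hv1 ?_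
      · intro θ hθ
        have h1 := hiA θ
        rw [hθ] at h1
        have h2 : VW (ind K) (fun x => ⟪A.toLinearEquiv.toLinearMap x, θ⟫_ℝ) =
          VW (ind K) (fun x => ⟪A x, θ⟫_ℝ) := rfl
        rw [h2, h1]
        norm_num
      · intro y
        rw [Real.sqrt_one, div_one]
        exact hvl y
    have key := Pool.Agent.Y665.FF.milb Pool.Agent.Y445.FF.mila' (Fin n) K' hcp' hcv' hvol'
      (1 / 25) κ (by norm_num) hκ hl g L' M' hg hb (by
        rw [VV_VW K' hcp'.measurableSet]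
        linarith)
    rw [VV_VW K' hcp'.measurableSet, EV_EW K' hcp'.measurableSet] at key
    exact key

end Pool.Agent.V5helper78.IK.X3
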