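import Pool.Agent.V5helper78.IK.Bod
import Pool.Agent.V5helper78.IK.Exp

/-!
# The level sets `{g² + |A x|² ≤ 1}`, with explicit constants
-/

set_option autoImplicit false

namespace Pool.Agent.V5helper78.IK

open MeasureTheory Set Filter Topology Metric
open scoped ENNReal InnerProductSpace
open Pool.Agent.Y506.PV (CcW ind wPhi Hom)
open Pool.Agent.Y506.RG (Star)
open Pool.Agent.R751.MB (AP)

/-- the function `g² + |A x|²` with values in `[0, ∞]` -/
noncomputable def Ph {n : ℕ} (g : E n → ℝ) (A : E n →L[ℝ] E n) (x : E n) : ℝ≥0∞ :=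
  ENNReal.ofReal (En g A x)

theorem wPhi_ph {n : ℕ} (g : E n → ℝ) (A : E n →L[ℝ] E n) :
    wPhi (Ph g A) = fun x => Real.exp (-(En g A x)) := by
  funext x
  unfold wPhi Ph
  rw [if_neg ENNReal.ofReal_ne_top, ENNReal.toReal_ofReal (en_nonneg g A x)]

theorem ph_le {n : ℕ} (g : E n → ℝ) (A : E n →L[ℝ] E n) :
    {x | Ph g A x ≤ 1} = {x | En g A x ≤ 1} := by
  ext x
  change ENNReal.ofReal (En g A x) ≤ 1 ↔ En g A x ≤ 1
  rw [ENNReal.ofReal_le_one]

theorem hom_ph {n : ℕ} {g : E n → ℝ} {ε : ℝ} {A : E n →L[ℝ] E n} (h : Iso g ε A) :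
    Hom 2 (Ph g A) := by
  obtain ⟨b1, b2, b3⟩ := Cl.body (n := n) (K := {x | En g A x ≤ 1}) ⟨g, A, h, rfl⟩
  refine ⟨(h.nm.en_cont A).measurable.ennreal_ofReal, fun r x hr => ?_, ?_, ?_⟩
  · unfold Ph
    rw [← ENNReal.ofReal_mul (by positivity), Real.rpow_two]
    congr 1
    unfold En
    rw [h.nm.smul, map_smul, norm_smul, Real.norm_eq_abs, mul_pow, mul_pow, sq_abs]
    ring
  · rw [ph_le]
    exact b1.isBounded
  · rw [ph_le]
    exact Pool.Agent.Y506.PV.vol_pos b3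

theorem cc_body {n : ℕ} (hn : 1 ≤ n) {g : E n → ℝ} {ε : ℝ} {A : E n →L[ℝ] E n} (h : Iso g ε A)
    (hε2 : ε ≤ 1 / 2) {δ : ℝ} (hδ : 0 < δ) :
    CcW (Real.sqrt (δ / 24) * Real.sqrt ε) δ (ind {x | En g A x ≤ 1}) := by
  have hε := h.pos
  have h1 : AP (κ := Fin n) (1 / ε) (wPhi (Ph g A)) := by
    have := h.ap_mul one_pos
    simp only [one_mul] at this
    rw [wPhi_ph]
    exact this
  have h2 := X1.apcE (1 / ε) (δ / 6) (by positivity) (by positivity) h1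
  obtain ⟨-, -, h3⟩ := X2.radE Pool.Agent.Y506.PV.Mx.mix Pool.Agent.Y388.PV.gam 2 δ
    (Real.sqrt (δ / 6 / (1 / ε))) (by norm_num) hδ (Real.sqrt_pos.2 (by positivity)) n (Ph g A) hn
    (hom_ph h)
  have h4 := h3 h2
  rw [ph_le] at h4
  refine Pool.Agent.Y506.PV.CcW.mono ?_ h4
  rw [← Real.sqrt_mul (by positivity)]
  refine le_min ?_ ?_
  · have e1 : δ / 6 / (1 / ε) = (δ / 24 * ε) * 2 ^ 2 := by field_simp; norm_num
    have e2 : Real.sqrt (δ / 6 / (1 / ε)) = Real.sqrt (δ / 24 * ε) * 2 := by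
      rw [e1, Real.sqrt_mul' _ (by norm_num : (0 : ℝ) ≤ 2 ^ 2), Real.sqrt_sq (by norm_num)]
    rw [e2]
    linarith
  · refine Real.sqrt_le_sqrt ?_
    rw [div_mul_eq_mul_div, div_le_div_iff₀ (by norm_num) (by norm_num)]
    nlinarith

theorem starE (p : ℕ) : ∃ C : ℝ, 0 < C ∧ ∀ ε : ℝ, 0 < ε → ε ≤ 1 / 2 → ∀ (m n : ℕ) (K : Set (E m))
    (T : E m →ₗ[ℝ] E n), 1 ≤ n → Cl ε m K → m ≤ n + p → Function.Surjective T →
    IsCompact (T '' K) ∧ Convex ℝ (T '' K) ∧ (interior (T '' K)).Nonempty ∧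
    Star (C / Real.sqrt ε) (ind (T '' K)) := by
  obtain ⟨C, hC, H⟩ := Pool.Agent.Y506.RG.max_const (fun d c => ∀ ε : ℝ, 0 < ε → ε ≤ 1 / 2 →
      ∀ (n : ℕ) (K : Set (E (n + d))) (T : E (n + d) →ₗ[ℝ] E n), 1 ≤ n → Cl ε (n + d) K →
      Function.Surjective T → Star (c / Real.sqrt ε) (ind (T '' K)))
    (fun d => by
      obtain ⟨δ0, c0, hδ0, hc0, H0⟩ := Pool.Agent.Y506.PV.cc_img Pool.Agent.Y941.PV.prj
        Pool.Agent.Y506.PV.denR Pool.Agent.Y388.PV.cmp Pool.Agent.Y388.PV.fac d (1 / 25)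
        (by norm_num)
      have hs0 : 0 < Real.sqrt (δ0 / 24) := Real.sqrt_pos.2 (by positivity)
      refine ⟨2 / (c0 * Real.sqrt (δ0 / 24)), by positivity, fun ε hε hε2 n K T hn hK hT => ?_⟩
      have hsε : 0 < Real.sqrt ε := Real.sqrt_pos.2 hε
      obtain ⟨b1, b2, b3⟩ := hK.body
      obtain ⟨g, A, hI, rfl⟩ := hK
      have h1 := cc_body (by omega) hI hε2 hδ0
      have h2 := H0 n _ _ T (by positivity) b1 b2 b3 hT h1
      have hTc : Continuous T := T.continuous_of_finiteDimensional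
      have h3 := X3.stbE Pool.Agent.Y211.PV.iso _ (by positivity) n _ (b1.image hTc)
        (b2.linear_image T) (Pool.Agent.Y506.PV.int_image b3 T hT) h2
      have e1 : 2 / (c0 * (Real.sqrt (δ0 / 24) * Real.sqrt ε)) / Real.sqrt 1 =
          2 / (c0 * Real.sqrt (δ0 / 24)) / Real.sqrt ε := by
        rw [Real.sqrt_one]
        field_simp
      rw [e1] at h3
      exact h3)
    (fun d c c' hcc h ε hε hε2 n K T hn hK hT => Pool.Agent.Y506.RG.Star.mono
      (div_le_div_of_nonneg_right hcc (Real.sqrt_nonneg ε))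
      (fun x => indicator_nonneg (fun _ _ => zero_le_one) x) (h ε hε hε2 n K T hn hK hT)) p
  refine ⟨C, hC, fun ε hε hε2 m n K T hn hK hm hT => ?_⟩
  have hnm : n ≤ m := by
    have := LinearMap.finrank_le_finrank_of_surjective (f := T) hT
    simpa using this
  obtain ⟨d, rfl⟩ : ∃ d, m = n + d := ⟨m - n, by omega⟩
  obtain ⟨b1, b2, b3⟩ := hK.body
  have hTc : Continuous T := T.continuous_of_finiteDimensional
  exact ⟨b1.image hTc, b2.linear_image T, Pool.Agent.Y506.PV.int_image b3 T hT,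
    H d (by omega) ε hε hε2 n K T hn hK hT⟩

end Pool.Agent.V5helper78.IK
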