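import Pool.Agent.V5helper78.IK.Cst
import Pool.Agent.V5helper78.IK.Str2
import Pool.Agent.V5helper78.IK.Mas2
import Pool.Agent.V5helper4.IK.CONT
import Pool.Agent.V5helper4.IK.DEC
import Pool.Agent.V5helper15.IK.CRI
import Pool.Agent.V5helper15.IK.MAX
import Pool.Agent.V5helper72.IK.INT
import Pool.Agent.V5helper18.IK.GAU
import Pool.Agent.V5helper6.IK.MAS
import Pool.Agent.V5helper6.IK.MOM

/-!
# The body `{g² + |A x|² ≤ 1}` for the maximising `A`
-/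

set_option autoImplicit false

namespace Pool.Agent.V5helper78.IK

open MeasureTheory Set Filter Topology Metric
open scoped ENNReal InnerProductSpace

open Pool.Agent.V5helper72.IK (t_INT t_VOL t_DET)
open Pool.Agent.V5helper4.IK (t_CON t_DEC)
open Pool.Agent.V5helper15.IK (t_CRI t_MAX)
open Pool.Agent.V5helper18.IK.GAU (t_GAU)
open Pool.Agent.V5helper6.IK (t_MOM)

theorem crR : S_CRI := t_CRI t_INT

theorem maxR : S_MAX := t_MAX t_INT t_CON t_DET t_DEC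

theorem iso_of {n : ℕ} {g : E n → ℝ} {ε : ℝ} {A : E n →L[ℝ] E n} (hg : Nm g) (hε : 0 < ε)
    (h : Mx g ε A) : Iso g ε A := ⟨hg, hε, h.det, crR n g ε A hg hε h⟩

theorem exists_iso {n : ℕ} (hn : 1 ≤ n) {K : Set (E n)} (hc : IsCompact K) (hv : Convex ℝ K)
    (hi : (interior K).Nonempty) (hs : ∀ x ∈ K, -x ∈ K) {ε : ℝ} (hε : 0 < ε) (hε2 : ε ≤ 1 / 2) :
    ∃ A : E n →L[ℝ] E n, Iso (gauge K) ε A ∧
      ((8000 * max 1 (isoC K) ^ 2)⁻¹) ^ (ε * n) * F (gauge K) 0 ≤ F (gauge K) A := by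
  obtain ⟨hg, hK⟩ := t_GAU n K hc hv hi hs
  obtain ⟨A, hA⟩ := maxR n (gauge K) ε hg hε (by linarith)
  obtain ⟨T, hT1, hT2⟩ := exists_T hn hc hi hs
  refine ⟨A, iso_of hg hε hA, mas2 n (gauge K) ε (max 1 (isoC K)) A T hn hg hε hε2
    (le_max_left _ _) hA (iso_of hg hε hA) ?_ ?_⟩
  · rwa [← hK]
  · rwa [← hK]

theorem Nm.sqrt {n : ℕ} {g : E n → ℝ} (h : Nm g) (A : E n →L[ℝ] E n) :
    Nm fun x => Real.sqrt (En g A x) := by
  have hE : ∀ x, 0 ≤ En g A x := fun x => en_nonneg g A x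
  refine ⟨fun x y => ?_, fun r x => ?_, Real.continuous_sqrt.comp (h.en_cont A), ?_⟩
  · have h1 := h.add x y
    have h2 : ‖A (x + y)‖ ≤ ‖A x‖ + ‖A y‖ := by rw [map_add]; exact norm_add_le _ _
    have hx := h.nonneg x
    have hy := h.nonneg y
    have hxy := h.nonneg (x + y)
    have h3 : √(En g A (x + y)) ≤ √((g x + g y) ^ 2 + (‖A x‖ + ‖A y‖) ^ 2) := by
      apply Real.sqrt_le_sqrt
      unfold En
      gcongr
    refine h3.trans ?_
    have h4 : 0 ≤ √(En g A x) + √(En g A y) := by positivity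
    rw [Real.sqrt_le_left h4]
    have h5 : g x * g y + ‖A x‖ * ‖A y‖ ≤ √(En g A x) * √(En g A y) := by
      rw [← Real.sqrt_mul (hE x)]
      apply Real.le_sqrt_of_sq_le
      unfold En
      nlinarith [sq_nonneg (g x * ‖A y‖ - g y * ‖A x‖)]
    have h6 := Real.sq_sqrt (hE x)
    have h7 := Real.sq_sqrt (hE y)
    have h8 : En g A x = g x ^ 2 + ‖A x‖ ^ 2 := rfl
    have h9 : En g A y = g y ^ 2 + ‖A y‖ ^ 2 := rfl
    nlinarith
  · have e1 : En g A (r • x) = r ^ 2 * En g A x := by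
      unfold En
      rw [h.smul, map_smul, norm_smul, Real.norm_eq_abs, mul_pow, mul_pow, sq_abs]
      ring
    simp only [e1]
    rw [Real.sqrt_mul (sq_nonneg r), Real.sqrt_sq_eq_abs]
  · obtain ⟨c, hc, h1⟩ := h.low
    refine ⟨c, hc, fun x => ?_⟩
    refine Real.le_sqrt_of_sq_le ?_
    have h2 := h1 x
    have h3 : (c * ‖x‖) ^ 2 ≤ g x ^ 2 := pow_le_pow_left₀ (by positivity) h2 2
    unfold En
    nlinarith [sq_nonneg ‖A x‖]

/-- the covariance of the body -/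
theorem Iso.cov_body {n : ℕ} (hn : 1 ≤ n) {g : E n → ℝ} {ε : ℝ} {A : E n →L[ℝ] E n}
    (h : Iso g ε A) (e : E n) (he : ‖e‖ = 1) :
    ∫ x in {x | En g A x ≤ 1}, ⟪A x, e⟫_ℝ ^ 2 =
      ε / (n + 2) * (volume {x | En g A x ≤ 1}).toReal := by
  let T : E n →L[ℝ] E n := ((innerSL ℝ e).comp A).smulRight e
  have hT : ∀ x, ‖T x‖ ^ 2 = ⟪A x, e⟫_ℝ ^ 2 := by
    intro x
    have : T x = ⟪e, A x⟫_ℝ • e := rfl
    rw [this, norm_smul, he, mul_one, Real.norm_eq_abs, sq_abs, real_inner_comm]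
  have h1 := t_MOM n (fun x => Real.sqrt (En g A x)) T hn (h.nm.sqrt A)
  have h2 : {x : E n | Real.sqrt (En g A x) ≤ 1} = {x | En g A x ≤ 1} := by
    ext x
    show √(En g A x) ≤ 1 ↔ En g A x ≤ 1
    rw [Real.sqrt_le_left zero_le_one, one_pow]
  rw [h2] at h1
  simp only [hT, Real.sq_sqrt (en_nonneg g A _)] at h1
  rw [h.cov e he] at h1
  have hΓ : 0 < Real.Gamma ((n : ℝ) / 2 + 1) := Real.Gamma_pos_of_pos (by positivity)
  have hΓ2 : Real.Gamma ((n : ℝ) / 2 + 2) = ((n : ℝ) / 2 + 1) * Real.Gamma ((n : ℝ) / 2 + 1) := by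
    have := Real.Gamma_add_one (s := (n : ℝ) / 2 + 1) (by positivity)
    rw [← this]
    congr 1
    ring
  have hF : 0 ≤ F g A := integral_nonneg fun x => (Real.exp_pos _).le
  have h3 : (volume {x | En g A x ≤ 1}).toReal = F g A / Real.Gamma ((n : ℝ) / 2 + 1) := by
    rw [t_VOL n g A hn h.nm, ENNReal.toReal_ofReal (by positivity)]
  rw [h3]
  rw [hΓ2] at h1
  have h4 : ((n : ℝ) / 2 + 1) ≠ 0 := by positivity
  have h5 : (n : ℝ) + 2 ≠ 0 := by positivity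
  field_simp
  field_simp at h1
  linarith

theorem vol_body {n : ℕ} (hn : 1 ≤ n) {K : Set (E n)} (hc : IsCompact K) (hv : Convex ℝ K)
    (hi : (interior K).Nonempty) (hs : ∀ x ∈ K, -x ∈ K) {c : ℝ} (hc0 : 0 ≤ c)
    {A : E n →L[ℝ] E n} (h : c * F (gauge K) 0 ≤ F (gauge K) A) :
    ENNReal.ofReal c * volume K ≤ volume {x | En (gauge K) A x ≤ 1} := by
  obtain ⟨hg, hK⟩ := t_GAU n K hc hv hi hs
  have hK' : K = {x | En (gauge K) 0 x ≤ 1} := by
    conv_lhs => rw [hK]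
    ext x
    have h1 : 0 ≤ gauge K x := gauge_nonneg x
    constructor
    · intro (hx : gauge K x ≤ 1)
      change gauge K x ^ 2 + ‖(0 : E n →L[ℝ] E n) x‖ ^ 2 ≤ 1
      simp only [zero_apply, norm_zero]
      nlinarith
    · intro (hx : gauge K x ^ 2 + ‖(0 : E n →L[ℝ] E n) x‖ ^ 2 ≤ 1)
      simp only [zero_apply, norm_zero] at hx
      change gauge K x ≤ 1
      nlinarith
  have h0 : volume K = ENNReal.ofReal (F (gauge K) 0 / Real.Gamma ((n : ℝ) / 2 + 1)) := by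
    rw [← t_VOL n (gauge K) 0 hn hg, ← hK']
  rw [h0, t_VOL n (gauge K) A hn hg, ← ENNReal.ofReal_mul hc0]
  have hΓ : 0 < Real.Gamma ((n : ℝ) / 2 + 1) := Real.Gamma_pos_of_pos (by positivity)
  refine ENNReal.ofReal_le_ofReal ?_
  rw [← mul_div_assoc]
  exact div_le_div_of_nonneg_right h hΓ.le

end Pool.Agent.V5helper78.IK
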