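import Pool.Agent.V5helper78.IK.Bod
import Pool.Agent.V5helper78.KP.Qd

/-!
# The level sets `{g² + |A x|² ≤ 1}`
-/

set_option autoImplicit false

namespace Pool.Agent.V5helper78.IK

open MeasureTheory Set Filter Topology Metric
open scoped ENNReal InnerProductSpace
open Pool.Agent.Y506.PV (CcW ind)
open Pool.Agent.Y506.RG (Star)
open Pool.Agent.R751.MB (AP)
open Pool.Agent.R755.KS (km_profile)
open Pool.Agent.N483.KM

theorem cl_all (ε : ℝ) (hε : 0 < ε) (δ : ℝ) (hδ : 0 < δ) : ∃ κ' : ℝ, 0 < κ' ∧ ∀ (n : ℕ)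
    (K : Set (E n)), Cl ε n K → IsCompact K ∧ Convex ℝ K ∧ (interior K).Nonempty ∧
    CcW κ' δ (ind K) := by
  obtain ⟨δ', hδ', h3⟩ := gibR 1 0 δ hδ
  obtain ⟨κ', hκ', h4⟩ := Pool.Agent.R751.MB.apc (1 / ε) δ' (by positivity) hδ'
  obtain ⟨κ₂, hκ₂, h5⟩ := h3 κ' hκ'
  refine ⟨κ₂, hκ₂, ?_⟩
  rintro n K ⟨g, A, hI, rfl⟩
  have hcont := hI.nm.en_cont A
  have hconv := hI.nm.en_conv A
  have hg0 : g 0 = 0 := by
    have := hI.nm.smul 0 0
    rwa [zero_smul, abs_zero, zero_mul] at this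
  have h00 : En g A 0 = 0 := by simp [En, hg0]
  obtain ⟨c, hc, hlow⟩ := hI.nm.low
  have hbd : ∀ s : ℝ, Bornology.IsBounded {x : E n | En g A x ≤ s} := by
    intro s
    refine (Metric.isBounded_closedBall (x := (0 : E n)) (r := (s + 1) / c)).subset fun z hz => ?_
    rw [mem_closedBall_zero_iff, le_div_iff₀ hc]
    have h1 : g z ^ 2 + ‖A z‖ ^ 2 ≤ s := hz
    have h2 := hlow z
    nlinarith [sq_nonneg (g z - 1), sq_nonneg ‖A z‖, sq_nonneg (g z)]
  have hcomp : IsCompact {x : E n | En g A x ≤ 1} :=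
    Metric.isCompact_of_isClosed_isBounded (isClosed_le hcont continuous_const) (hbd 1)
  have hcv : Convex ℝ {x : E n | En g A x ≤ 1} := by
    have := hconv.convex_le 1
    simpa using this
  have hint : (interior {x : E n | En g A x ≤ 1}).Nonempty := by
    refine ⟨0, ?_⟩
    have hop : IsOpen {x : E n | En g A x < 1} := isOpen_lt hcont continuous_const
    have hsub : {x : E n | En g A x < 1} ⊆ {x : E n | En g A x ≤ 1} := fun x hx =>
      le_of_lt (show En g A x < 1 from hx)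
    refine interior_maximal hsub hop ?_
    change En g A 0 < 1
    rw [h00]
    exact one_pos
  refine ⟨hcomp, hcv, hint, ?_⟩
  rcases Nat.eq_zero_or_pos n with rfl | hn
  · exact Pool.Agent.R754.KG.cc_zero hδ.le _ hcomp hint
  let ψ : (E n × E 0) ≃ₗ[ℝ] E n :=
    { toFun := fun z => z.1
      map_add' := fun x y => rfl
      map_smul' := fun c x => rfl
      invFun := fun x => (x, 0)
      left_inv := fun z => Prod.ext rfl (Subsingleton.elim _ _)
      right_inv := fun x => rfl }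
  let U : Fin 1 → E n → ℝ := fun _ x => En g A x
  have hKe : {x : E n | En g A x ≤ 1} = {x : E n | ∀ j : Fin 1, U j (ψ (x, 0)) ≤ 1} := by
    ext x
    exact ⟨fun h _ => h, fun h => h 0⟩
  rw [hKe]
  refine h5 n n ψ U (fun _ => 1) hn (fun _ => hconv) (fun _ z => en_nonneg g A z) (fun s => ?_)
    ⟨0, fun j => ?_⟩ fun l t hl => ?_
  · exact (hbd (s 0)).subset fun z hz => hz 0
  · change En g A 0 < 1
    rw [h00]
    exact one_pos
  · have h7 := hI.ap_mul (hl 0)
    have hgw : gw ψ U l t = fun z => Real.exp (-(l 0 * En g A z)) := by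
      funext z
      have ht : t = 0 := Subsingleton.elim _ _
      unfold gw
      rw [ht, inner_zero_left, add_zero, Fin.sum_univ_one]
    rw [hgw]
    exact ⟨⟨h7.adm.nonneg, h7.adm.int, h7.adm.pos, h7.adm.meas⟩, h4 n _ h7⟩

theorem cl_star (ε : ℝ) (hε : 0 < ε) (p : ℕ) : ∃ c : ℝ, 0 < c ∧ ∀ (m n : ℕ) (K : Set (E m))
    (T : E m →ₗ[ℝ] E n) (w : E n), Cl ε m K → m ≤ n + p → Function.Surjective T →
    IsCompact ((fun x => w + T x) '' K) ∧ Convex ℝ ((fun x => w + T x) '' K) ∧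
    (interior ((fun x => w + T x) '' K)).Nonempty ∧ Star c (ind ((fun x => w + T x) '' K)) := by
  obtain ⟨A', -, H⟩ := km_profile (P := fun m K => Cl ε m K) fun δ hδ => by
    obtain ⟨κ', hκ', H⟩ := cl_all ε hε δ hδ
    exact ⟨κ', hκ', fun m K hK => H m K hK⟩
  obtain ⟨c, hc, Hc⟩ := cyR cclR A' 1 1 one_pos one_pos 0 p 1
  refine ⟨c, hc, fun m n K T w hK hm hT => ?_⟩
  obtain ⟨a1, a2, a3, a4⟩ := H m K hK
  exact Hc _ _ (.image _ _ _ _ T w hm hT (.base _ _ a1 a2 a3 a4))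

end Pool.Agent.V5helper78.IK
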